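import Pool.Agent.W761.CP.Defs

/-!
# Project CP, part ONB: orthonormal eigenvectors in the range of the projection
-/

set_option autoImplicit false

open MeasureTheory
open scoped ENNReal InnerProductSpace

namespace Pool.Agent.W701.CP

open Pool.Agent.W761.CP

theorem onb : S_ONB := by
  intro X _ _ _ H T P hH0 hR hsym hpos hnorm hPP hfin hTP
  obtain ⟨hR1, -⟩ := hR
  have hPW : ∀ v ∈ LinearMap.range (P : X →ₗ[ℂ] X), P v = v := by
    rintro _ ⟨v, rfl⟩
    exact hPP v
  have hTW : ∀ v ∈ LinearMap.range (P : X →ₗ[ℂ] X),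
      (T : X →ₗ[ℂ] X) v ∈ LinearMap.range (P : X →ₗ[ℂ] X) := by
    intro v hv
    refine ⟨T v, ?_⟩
    have h1 := hTP v
    rw [hPW v hv] at h1
    exact h1.symm
  have hS : ((T : X →ₗ[ℂ] X).restrict hTW).IsSymmetric := by
    intro v w
    exact hsym v w
  have hn : Module.finrank ℂ (LinearMap.range (P : X →ₗ[ℂ] X)) =
      Module.finrank ℂ (LinearMap.range (P : X →ₗ[ℂ] X)) := rfl
  have key : ∀ j, ((hS.eigenvectorBasis hn j : LinearMap.range (P : X →ₗ[ℂ] X)) : X) ≠ 0 ∧
      T ((hS.eigenvectorBasis hn j : LinearMap.range (P : X →ₗ[ℂ] X)) : X) =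
        ((hS.eigenvalues hn j : ℝ) : ℂ) • ((hS.eigenvectorBasis hn j :
          LinearMap.range (P : X →ₗ[ℂ] X)) : X) ∧
      ‖((hS.eigenvectorBasis hn j : LinearMap.range (P : X →ₗ[ℂ] X)) : X)‖ = 1 := by
    intro j
    have h1 : ‖hS.eigenvectorBasis hn j‖ = 1 := (hS.eigenvectorBasis hn).orthonormal.1 j
    have h2 : ‖((hS.eigenvectorBasis hn j : LinearMap.range (P : X →ₗ[ℂ] X)) : X)‖ = 1 := h1
    refine ⟨?_, ?_, h2⟩
    · intro h0
      rw [h0, norm_zero] at h2
      exact zero_ne_one h2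
    · have h3 := hS.apply_eigenvectorBasis hn j
      exact congrArg Subtype.val h3
  have ht : ∀ j, 0 < hS.eigenvalues hn j ∧ hS.eigenvalues hn j ≤ 1 := by
    intro j
    obtain ⟨k1, k2, k3⟩ := key j
    set ψ : X := ((hS.eigenvectorBasis hn j : LinearMap.range (P : X →ₗ[ℂ] X)) : X) with hψ
    set t : ℝ := hS.eigenvalues hn j with htdef
    have h1 : 0 ≤ t := by
      have h2 := hpos ψ
      rw [k2, inner_smul_left, inner_self_eq_norm_sq_to_K, k3] at h2
      simpa using h2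
    have h3 : t ≠ 0 := by
      intro h0
      have h4 := hR1 ψ
      rw [k2, h0] at h4
      simp only [Complex.ofReal_zero, zero_smul, smul_zero, add_zero] at h4
      exact k1 (hH0 ψ h4)
    have h5 : t ≤ 1 := by
      have h6 := hnorm ψ
      rw [k2, norm_smul, k3, Complex.norm_real, Real.norm_of_nonneg h1] at h6
      linarith
    exact ⟨lt_of_le_of_ne h1 (Ne.symm h3), h5⟩
  refine ⟨fun j => ((hS.eigenvectorBasis hn j : LinearMap.range (P : X →ₗ[ℂ] X)) : X),
    fun j => 1 / hS.eigenvalues hn j - 1, ?_, ?_, ?_, ?_⟩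
  · exact (hS.eigenvectorBasis hn).orthonormal.comp_linearIsometry
      (LinearMap.range (P : X →ₗ[ℂ] X)).subtypeₗᵢ
  · intro j
    exact hPW _ (hS.eigenvectorBasis hn j).2
  · intro j
    obtain ⟨t1, t2⟩ := ht j
    have : 1 ≤ 1 / hS.eigenvalues hn j := by
      rw [le_div_iff₀ t1]
      linarith
    linarith
  · intro j
    obtain ⟨k1, k2, k3⟩ := key j
    obtain ⟨t1, t2⟩ := ht j
    have h4 := hR1 ((hS.eigenvectorBasis hn j : LinearMap.range (P : X →ₗ[ℂ] X)) : X)
    rw [k2] at h4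
    have h5 := H.smul_mem (((hS.eigenvalues hn j : ℝ) : ℂ)⁻¹) h4
    have htc : ((hS.eigenvalues hn j : ℝ) : ℂ) ≠ 0 := by exact_mod_cast t1.ne'
    have h6 : (((hS.eigenvalues hn j : ℝ) : ℂ)⁻¹) •
        (((hS.eigenvalues hn j : ℝ) : ℂ) • ((hS.eigenvectorBasis hn j :
          LinearMap.range (P : X →ₗ[ℂ] X)) : X),
        ((hS.eigenvectorBasis hn j : LinearMap.range (P : X →ₗ[ℂ] X)) : X) + (-1 : ℂ) •
          ((hS.eigenvalues hn j : ℝ) : ℂ) • ((hS.eigenvectorBasis hn j :
          LinearMap.range (P : X →ₗ[ℂ] X)) : X)) =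
        (((hS.eigenvectorBasis hn j : LinearMap.range (P : X →ₗ[ℂ] X)) : X),
          (((1 / hS.eigenvalues hn j - 1 : ℝ)) : ℂ) •
            ((hS.eigenvectorBasis hn j : LinearMap.range (P : X →ₗ[ℂ] X)) : X)) := by
      rw [Prod.smul_mk]
      congr 1
      · rw [smul_smul, inv_mul_cancel₀ htc, one_smul]
      · rw [smul_add, smul_smul, smul_smul, ← add_smul]
        congr 1
        push_cast
        field_simp
        ring
    rw [h6] at h5
    exact h5

end Pool.Agent.W701.CP
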